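import Mathlib

/-!
# Paralindelof spaces: definitions

`LocallyCountable V` : every point has a neighbourhood meeting only countably many members of `V`.
`Paralindelof X` : every open cover of `X` has a locally countable open refinement.
-/

namespace Pool.Agent.Lib.MP_6bd103_gt

open Set Topology

/-- A family `V` of subsets of `X` is locally countable if every point of `X` has a neighbourhood
that meets only countably many members of `V`. -/
def LocallyCountable {X : Type*} [TopologicalSpace X] (V : Set (Set X)) : Prop :=
  ∀ x : X, ∃ N ∈ 𝓝 x, {v : Set X | v ∈ V ∧ (v ∩ N).Nonempty}.Countable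

/-- A space is paralindelof if every open cover has a locally countable open refinement
(a refinement is a cover each of whose members lies inside a member of the given cover). -/
def Paralindelof (X : Type*) [TopologicalSpace X] : Prop :=
  ∀ U : Set (Set X), (∀ u ∈ U, IsOpen u) → ⋃₀ U = univ →
    ∃ V : Set (Set X), (∀ v ∈ V, IsOpen v) ∧ ⋃₀ V = univ ∧ (∀ v ∈ V, ∃ u ∈ U, v ⊆ u) ∧
      LocallyCountable V

end Pool.Agent.Lib.MP_6bd103_gt
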