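import Mathlib
import Pool.Agent.Lib.MP_6bd103_gt.Defs

/-!
# A Navy-type space over the increasing sequences of countable ordinals

`W` is a linear order (later: the countable ordinals). `H W` is the set of strictly increasing
sequences of `W`. `Q W` is the set of all locally constant functions `H W → ℕ`.
An isolated point carries two sequences `a b : ℕ → W`, a length `k` up to which they interleave,
and a function `Q W → ℕ`.
-/

namespace Pool.Agent.Lib.MP_6bd103_gt

open Set Topology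

/-- Strictly increasing sequences. -/
def H (W : Type) [LinearOrder W] : Type := {x : ℕ → W // StrictMono x}

variable {W : Type} [LinearOrder W]

/-- Two increasing sequences agree below `n`. -/
def Agree (n : ℕ) (x z : H W) : Prop := ∀ j < n, x.1 j = z.1 j

theorem Agree.refl (n : ℕ) (x : H W) : Agree n x x := fun _ _ => rfl

theorem Agree.symm {n : ℕ} {x z : H W} (h : Agree n x z) : Agree n z x :=
  fun j hj => (h j hj).symm

theorem Agree.trans {n : ℕ} {x z w : H W} (h : Agree n x z) (h' : Agree n z w) : Agree n x w :=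
  fun j hj => (h j hj).trans (h' j hj)

theorem Agree.mono {n m : ℕ} (hmn : m ≤ n) {x z : H W} (h : Agree n x z) : Agree m x z :=
  fun j hj => h j (lt_of_lt_of_le hj hmn)

/-- Locally constant functions from the increasing sequences to `ℕ`. -/
def Q (W : Type) [LinearOrder W] : Type :=
  {q : H W → ℕ // ∀ x, ∃ n, ∀ z, Agree n x z → q z = q x}

/-- The isolated points. -/
structure Iso (W : Type) [LinearOrder W] : Type where
  /-- first sequence -/
  a : ℕ → W
  /-- second sequence -/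
  b : ℕ → W
  /-- common length -/
  k : ℕ
  /-- the two sequences interleave below `k` -/
  hab : ∀ j, j + 1 < k → a j < b (j + 1) ∧ b j < a (j + 1)
  /-- prescribed values of the locally constant functions -/
  f : Q W → ℕ

/-- The space `X`: sequences together with isolated points. -/
inductive XX (W : Type) [LinearOrder W] : Type
  | seq : H W → XX W
  | pt : Iso W → XX W

/-- The space `Y`: all sequences with the same first term are identified. -/
inductive YY (W : Type) [LinearOrder W] : Type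
  | bas : W → YY W
  | pt : Iso W → YY W

/-- The basic neighbourhoods of a point `x` of `H W`. -/
def InN (x : H W) (n : ℕ) (F : Finset (Q W)) : XX W → Prop
  | XX.seq z => Agree n x z ∧ ∀ q ∈ F, q.1 z = q.1 x
  | XX.pt i => n ≤ i.k ∧ ((∀ j < n, x.1 j = i.a j) ∨ (∀ j < n, x.1 j = i.b j)) ∧
      ∀ q ∈ F, i.f q = q.1 x

/-- The basic neighbourhood as a set. -/
def N (x : H W) (n : ℕ) (F : Finset (Q W)) : Set (XX W) := {p | InN x n F p}

theorem mem_N_seq {x z : H W} {n : ℕ} {F : Finset (Q W)} :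
    XX.seq z ∈ N x n F ↔ Agree n x z ∧ ∀ q ∈ F, q.1 z = q.1 x := Iff.rfl

theorem mem_N_pt {x : H W} {i : Iso W} {n : ℕ} {F : Finset (Q W)} :
    XX.pt i ∈ N x n F ↔ n ≤ i.k ∧
      ((∀ j < n, x.1 j = i.a j) ∨ (∀ j < n, x.1 j = i.b j)) ∧ ∀ q ∈ F, i.f q = q.1 x := Iff.rfl

theorem self_mem_N (x : H W) (n : ℕ) (F : Finset (Q W)) : XX.seq x ∈ N x n F :=
  ⟨Agree.refl n x, fun _ _ => rfl⟩

theorem N_mono (x : H W) {n m : ℕ} {F G : Finset (Q W)} (hnm : n ≤ m) (hFG : F ⊆ G) :
    N x m G ⊆ N x n F := by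
  rintro (z | i) h
  · exact ⟨h.1.mono hnm, fun q hq => h.2 q (hFG hq)⟩
  · refine ⟨hnm.trans h.1, ?_, fun q hq => h.2.2 q (hFG hq)⟩
    rcases h.2.1 with h1 | h1
    · exact Or.inl fun j hj => h1 j (lt_of_lt_of_le hj hnm)
    · exact Or.inr fun j hj => h1 j (lt_of_lt_of_le hj hnm)

theorem N_congr {x z : H W} {n : ℕ} {F : Finset (Q W)}
    (h1 : Agree n x z) (h2 : ∀ q ∈ F, q.1 z = q.1 x) : N z n F = N x n F := by
  ext p
  rcases p with w | i
  · simp only [mem_N_seq]
    constructor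
    · rintro ⟨h, h'⟩
      exact ⟨h1.trans h, fun q hq => (h' q hq).trans (h2 q hq)⟩
    · rintro ⟨h, h'⟩
      exact ⟨h1.symm.trans h, fun q hq => (h' q hq).trans (h2 q hq).symm⟩
  · simp only [mem_N_pt]
    refine and_congr_right fun _ => and_congr (or_congr ?_ ?_) ?_
    · exact forall_congr' fun j => forall_congr' fun hj => by rw [h1 j hj]
    · exact forall_congr' fun j => forall_congr' fun hj => by rw [h1 j hj]
    · exact forall_congr' fun q => forall_congr' fun hq => by rw [h2 q hq]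

open Classical in
instance instTopXX : TopologicalSpace (XX W) where
  IsOpen U := ∀ x : H W, XX.seq x ∈ U → ∃ n F, N x n F ⊆ U
  isOpen_univ := fun x _ => ⟨0, ∅, subset_univ _⟩
  isOpen_inter := by
    intro U V hU hV x hx
    obtain ⟨n, F, h1⟩ := hU x hx.1
    obtain ⟨m, G, h2⟩ := hV x hx.2
    refine ⟨max n m, F ∪ G, subset_inter ?_ ?_⟩
    · exact (N_mono x (le_max_left _ _) Finset.subset_union_left).trans h1
    · exact (N_mono x (le_max_right _ _) Finset.subset_union_right).trans h2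
  isOpen_sUnion := by
    intro S hS x hx
    obtain ⟨U, hU, hxU⟩ := hx
    obtain ⟨n, F, h⟩ := hS U hU x hxU
    exact ⟨n, F, h.trans (subset_sUnion_of_mem hU)⟩

theorem isOpen_XX {U : Set (XX W)} :
    IsOpen U ↔ ∀ x : H W, XX.seq x ∈ U → ∃ n F, N x n F ⊆ U := Iff.rfl

open Classical in
instance instTopYY : TopologicalSpace (YY W) where
  IsOpen U := ∀ x : H W, YY.bas (x.1 0) ∈ U →
    ∃ n F, ∀ i, XX.pt i ∈ N x n F → YY.pt i ∈ U
  isOpen_univ := fun x _ => ⟨0, ∅, fun _ _ => mem_univ _⟩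
  isOpen_inter := by
    intro U V hU hV x hx
    obtain ⟨n, F, h1⟩ := hU x hx.1
    obtain ⟨m, G, h2⟩ := hV x hx.2
    refine ⟨max n m, F ∪ G, fun i hi => ⟨?_, ?_⟩⟩
    · exact h1 i (N_mono x (le_max_left _ _) Finset.subset_union_left hi)
    · exact h2 i (N_mono x (le_max_right _ _) Finset.subset_union_right hi)
  isOpen_sUnion := by
    intro S hS x hx
    obtain ⟨U, hU, hxU⟩ := hx
    obtain ⟨n, F, h⟩ := hS U hU x hxU
    exact ⟨n, F, fun i hi => ⟨U, hU, h i hi⟩⟩

theorem isOpen_YY {U : Set (YY W)} :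
    IsOpen U ↔ ∀ x : H W, YY.bas (x.1 0) ∈ U →
    ∃ n F, ∀ i, XX.pt i ∈ N x n F → YY.pt i ∈ U := Iff.rfl

/-- The quotient map. -/
def proj : XX W → YY W
  | XX.seq x => YY.bas (x.1 0)
  | XX.pt i => YY.pt i

theorem continuous_proj : Continuous (proj (W := W)) := by
  refine continuous_def.2 fun U hU => ?_
  intro x hx
  obtain ⟨n, F, h⟩ := isOpen_YY.1 hU x hx
  obtain ⟨m, hm⟩ : ∃ m : ℕ, 1 ≤ m ∧ n ≤ m := ⟨max 1 n, le_max_left _ _, le_max_right _ _⟩
  refine ⟨m, F, ?_⟩
  rintro (z | i) hp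
  · have h0 : x.1 0 = z.1 0 := hp.1 0 hm.1
    change YY.bas (z.1 0) ∈ U
    rw [← h0]
    exact hx
  · exact h i (N_mono x hm.2 subset_rfl hp)

theorem isClosedMap_proj : IsClosedMap (proj (W := W)) := by
  intro C hC
  rw [← isOpen_compl_iff] at hC ⊢
  intro x hx
  have hxC : XX.seq x ∈ Cᶜ := fun h => hx ⟨_, h, rfl⟩
  obtain ⟨n, F, h⟩ := isOpen_XX.1 hC x hxC
  refine ⟨n, F, fun i hi => ?_⟩
  rintro ⟨p, hp, hpi⟩
  rcases p with z | j
  · cases hpi
  · cases hpi
    exact h hi hp

/-- `N x n F` is open. -/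
theorem isOpen_N (x : H W) (n : ℕ) (F : Finset (Q W)) : IsOpen (N x n F) := by
  intro z hz
  exact ⟨n, F, (N_congr hz.1 hz.2).subset⟩

theorem isOpen_singleton_pt (i : Iso W) : IsOpen ({XX.pt i} : Set (XX W)) := by
  intro x hx
  cases hx

theorem isOpen_of_pts {U : Set (XX W)} (hU : ∀ x, XX.seq x ∉ U) : IsOpen U := by
  intro x hx
  exact absurd hx (hU x)

/-- Locally constant sets of sequences. -/
def IsLC (S : Set (H W)) : Prop := ∀ x, ∃ n, ∀ z, Agree n x z → (z ∈ S ↔ x ∈ S)

open Classical in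
/-- Characteristic function of a clopen set of sequences as an element of `Q`. -/
noncomputable def chi (S : Set (H W)) (hS : IsLC S) : Q W :=
  ⟨fun x => if x ∈ S then 1 else 0, fun x => by
    obtain ⟨n, hn⟩ := hS x
    exact ⟨n, fun z hz => by simp only [hn z hz]⟩⟩

theorem chi_eq_one {S : Set (H W)} {hS : IsLC S} {x : H W} : (chi S hS).1 x = 1 ↔ x ∈ S := by
  classical
  unfold chi
  by_cases h : x ∈ S <;> simp [h]

theorem chi_eq_iff {S : Set (H W)} {hS : IsLC S} {x z : H W} :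
    (chi S hS).1 x = (chi S hS).1 z ↔ (x ∈ S ↔ z ∈ S) := by
  classical
  unfold chi
  by_cases h : x ∈ S <;> by_cases h' : z ∈ S <;> simp [h, h']

/-- A separation lemma: disjoint closed subsets of the sequence part are separated by an element
of `Q`. -/
theorem exists_separating (A B : Set (XX W)) (hA : IsClosed A) (hB : IsClosed B)
    (hAB : Disjoint A B) :
    ∃ S : Set (H W), ∃ _ : IsLC S, (∀ x, XX.seq x ∈ A → x ∈ S) ∧
      (∀ x, XX.seq x ∈ B → x ∉ S) := by
  classical
  -- `P x n` : the cone of `x` at level `n` misses `A` or misses `B`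
  let P : H W → ℕ → Prop := fun x n =>
    (∀ z, Agree n x z → XX.seq z ∉ A) ∨ (∀ z, Agree n x z → XX.seq z ∉ B)
  have hPc : ∀ x z n, Agree n x z → P x n → P z n := by
    rintro x z n hxz (h | h)
    · exact Or.inl fun w hw => h w (hxz.trans hw)
    · exact Or.inr fun w hw => h w (hxz.trans hw)
  -- every open set is a union of cones on the sequence part
  have key : ∀ C : Set (XX W), IsClosed C → ∀ x, XX.seq x ∉ C →
      ∃ n, ∀ z, Agree n x z → XX.seq z ∉ C := by
    intro C hC x hx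
    obtain ⟨n, F, h⟩ := isOpen_XX.1 hC.isOpen_compl x hx
    choose m hm using fun q : Q W => q.2 x
    refine ⟨max n (F.sup m), fun z hz => h ?_⟩
    refine ⟨hz.mono (le_max_left _ _), fun q hq => ?_⟩
    exact hm q z (hz.mono ((Finset.le_sup hq).trans (le_max_right _ _)))
  have hP : ∀ x, ∃ n, P x n := by
    intro x
    by_cases hxA : XX.seq x ∈ A
    · have hxB : XX.seq x ∉ B := fun h => Set.disjoint_left.1 hAB hxA h
      obtain ⟨n, hn⟩ := key B hB x hxB
      exact ⟨n, Or.inr hn⟩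
    · obtain ⟨n, hn⟩ := key A hA x hxA
      exact ⟨n, Or.inl hn⟩
  let m : H W → ℕ := fun x => Nat.find (hP x)
  have hm : ∀ x z, Agree (m x) x z → m z = m x := by
    intro x z hxz
    apply le_antisymm
    · exact Nat.find_min' _ (hPc x z _ hxz (Nat.find_spec (hP x)))
    · by_contra hlt
      push Not at hlt
      have h1 : Agree (m z) x z := hxz.mono hlt.le
      exact Nat.find_min (hP x) hlt (hPc z x _ h1.symm (Nat.find_spec (hP z)))
  refine ⟨{x | ∃ z, Agree (m x) x z ∧ XX.seq z ∈ A}, ?_, ?_, ?_⟩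
  · intro x
    refine ⟨m x, fun z hz => ?_⟩
    have h1 := hm x z hz
    constructor
    · rintro ⟨w, hw, hwA⟩
      rw [h1] at hw
      exact ⟨w, hz.trans hw, hwA⟩
    · rintro ⟨w, hw, hwA⟩
      refine ⟨w, ?_, hwA⟩
      rw [h1]
      exact hz.symm.trans hw
  · intro x hx
    exact ⟨x, Agree.refl _ _, hx⟩
  · rintro x hx ⟨z, hz, hzA⟩
    rcases Nat.find_spec (hP x) with h | h
    · exact h z hz hzA
    · exact h x (Agree.refl _ _) hx

/-- The space `X` is normal. -/
instance normalXX : NormalSpace (XX W) := by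
  classical
  refine ⟨fun A B hA hB hAB => ?_⟩
  obtain ⟨S, hS, hSA, hSB⟩ := exists_separating A B hA hB hAB
  set q := chi S hS with hq
  have hnA : ∀ x, XX.seq x ∈ A → ∃ n, ∃ F : Finset (Q W), N x n F ⊆ Bᶜ := fun x hx =>
    isOpen_XX.1 hB.isOpen_compl x (fun h => Set.disjoint_left.1 hAB hx h)
  have hnB : ∀ x, XX.seq x ∈ B → ∃ n, ∃ F : Finset (Q W), N x n F ⊆ Aᶜ := fun x hx =>
    isOpen_XX.1 hA.isOpen_compl x (fun h => Set.disjoint_left.1 hAB h hx)
  choose nA FA hFA using hnA
  choose nB FB hFB using hnB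
  refine ⟨A ∪ {p | ∃ x, ∃ hx : XX.seq x ∈ A, p ∈ N x (nA x hx) (insert q (FA x hx))},
    B ∪ {p | ∃ x, ∃ hx : XX.seq x ∈ B, p ∈ N x (nB x hx) (insert q (FB x hx))},
    ?_, ?_, subset_union_left, subset_union_left, ?_⟩
  · intro x hx
    rcases hx with hx | ⟨z, hz, hxz⟩
    · exact ⟨nA x hx, insert q (FA x hx), fun p hp => Or.inr ⟨x, hx, hp⟩⟩
    · obtain ⟨n, F, h⟩ := isOpen_XX.1 (isOpen_N z _ _) x hxz
      exact ⟨n, F, fun p hp => Or.inr ⟨z, hz, h hp⟩⟩
  · intro x hx
    rcases hx with hx | ⟨z, hz, hxz⟩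
    · exact ⟨nB x hx, insert q (FB x hx), fun p hp => Or.inr ⟨x, hx, hp⟩⟩
    · obtain ⟨n, F, h⟩ := isOpen_XX.1 (isOpen_N z _ _) x hxz
      exact ⟨n, F, fun p hp => Or.inr ⟨z, hz, h hp⟩⟩
  · rw [Set.disjoint_left]
    rintro p (hp | ⟨x, hx, hpx⟩) (hp' | ⟨z, hz, hpz⟩)
    · exact Set.disjoint_left.1 hAB hp hp'
    · exact hFB z hz (N_mono z le_rfl (Finset.subset_insert _ _) hpz) hp
    · exact hFA x hx (N_mono x le_rfl (Finset.subset_insert _ _) hpx) hp'
    · have hqne : q.1 x ≠ q.1 z := by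
        intro h
        have := chi_eq_iff.1 h
        exact hSB z hz (this.1 (hSA x hx))
      rcases p with w | i
      · exact hqne ((hpx.2 q (Finset.mem_insert_self _ _)).symm.trans
          (hpz.2 q (Finset.mem_insert_self _ _)))
      · exact hqne ((hpx.2.2 q (Finset.mem_insert_self _ _)).symm.trans
          (hpz.2.2 q (Finset.mem_insert_self _ _)))

/-- Points of `X` are closed. -/
instance t1XX : T1Space (XX W) := by
  classical
  refine ⟨fun p => ?_⟩
  rw [← isOpen_compl_iff]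
  rintro x hx
  rcases p with z | i
  · have hxz : x.1 ≠ z.1 := by
      intro h
      exact hx (congrArg XX.seq (Subtype.ext h))
    obtain ⟨n, hn⟩ := Function.ne_iff.1 hxz
    refine ⟨n + 1, ∅, ?_⟩
    rintro p hp rfl
    exact hn (hp.1 n (Nat.lt_succ_self n))
  · refine ⟨i.k + 1, ∅, ?_⟩
    rintro p hp rfl
    exact absurd hp.1 (by simp)

instance t4XX : T4Space (XX W) := { }

/-- Points of `Y` are closed. -/
instance t1YY : T1Space (YY W) := by
  classical
  refine ⟨fun p => ?_⟩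
  rw [← isOpen_compl_iff]
  rintro x hx
  rcases p with d | i
  · exact ⟨0, ∅, fun i _ h => by cases h⟩
  · refine ⟨i.k + 1, ∅, fun j hj h => ?_⟩
    cases h
    exact absurd hj.1 (by simp)

theorem surjective_proj (hW : ∀ d : W, ∃ x : H W, x.1 0 = d) :
    Function.Surjective (proj (W := W)) := by
  rintro (d | i)
  · obtain ⟨x, hx⟩ := hW d
    exact ⟨XX.seq x, by rw [← hx]; rfl⟩
  · exact ⟨XX.pt i, rfl⟩

/-- A closed continuous image of a normal space is normal. -/
theorem normal_of_closedMap {X Y : Type*} [TopologicalSpace X] [TopologicalSpace Y]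
    [NormalSpace X] {f : X → Y} (hf : Continuous f) (hc : IsClosedMap f)
    (hs : Function.Surjective f) : NormalSpace Y := by
  refine ⟨fun A B hA hB hAB => ?_⟩
  obtain ⟨U, V, hU, hV, hAU, hBV, hUV⟩ := normal_separation (hA.preimage hf) (hB.preimage hf)
    (hAB.preimage f)
  refine ⟨(f '' Uᶜ)ᶜ, (f '' Vᶜ)ᶜ, (hc _ hU.isClosed_compl).isOpen_compl,
    (hc _ hV.isClosed_compl).isOpen_compl, ?_, ?_, ?_⟩
  · rintro y hy ⟨x, hx, rfl⟩
    exact hx (hAU hy)
  · rintro y hy ⟨x, hx, rfl⟩
    exact hx (hBV hy)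
  · rw [Set.disjoint_left]
    intro y hyU hyV
    obtain ⟨x, rfl⟩ := hs y
    have h1 : x ∈ U := by
      by_contra h
      exact hyU ⟨x, h, rfl⟩
    have h2 : x ∈ V := by
      by_contra h
      exact hyV ⟨x, h, rfl⟩
    exact Set.disjoint_left.1 hUV h1 h2

theorem t4YY (hW : ∀ d : W, ∃ x : H W, x.1 0 = d) : T4Space (YY W) := by
  have := normal_of_closedMap (X := XX W) (Y := YY W) continuous_proj isClosedMap_proj
    (surjective_proj hW)
  exact { }

end Pool.Agent.Lib.MP_6bd103_gt
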