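import Mathlib
import Pool.Agent.Lib.MP_6bd103_gt.Space

/-!
# The space `Y` is not paralindelof

The combinatorial core: a tree argument with finite conditions.
-/

namespace Pool.Agent.Lib.MP_6bd103_gt

open Set Topology

variable {W : Type} [LinearOrder W]

/-- Finite conditions: finite sets of pairs. -/
def Functional {A : Type} (g : Finset (A × ℕ)) : Prop :=
  ∀ q v w, (q, v) ∈ g → (q, w) ∈ g → v = w

/-- Compatibility of conditions. -/
def Compat {A : Type} (g h : Finset (A × ℕ)) : Prop :=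
  ∀ q v w, (q, v) ∈ g → (q, w) ∈ h → v = w

/-- The tree predicate. `base n s g` says that `s` restricted to `n` is a terminal node carrying
the condition `g`. -/
def TP {A : Type} (base : ℕ → (ℕ → W) → Finset (A × ℕ) → Prop) :
    ℕ → ℕ → (ℕ → W) → Finset (A × ℕ) → Prop
  | 0, n, s, g => base n s g
  | k + 1, n, s, g => ∀ (E : Finset A) (β : W), ∃ α, β < α ∧ ∃ g', g ⊆ g' ∧
      (∀ q v, (q, v) ∈ g' → q ∈ E → (q, v) ∈ g) ∧ TP base k (n + 1) (Function.update s n α) g'

variable {A : Type} {base : ℕ → (ℕ → W) → Finset (A × ℕ) → Prop}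

theorem TP_congr (hb : ∀ n s t g, (∀ j < n, s j = t j) → base n s g → base n t g) :
    ∀ k n s t g, (∀ j < n, s j = t j) → TP base k n s g → TP base k n t g := by
  intro k
  induction k with
  | zero => exact fun n s t g h h' => hb n s t g h h'
  | succ k ih =>
    intro n s t g h h' E β
    obtain ⟨α, hα, g', hg', hE, hT⟩ := h' E β
    refine ⟨α, hα, g', hg', hE, ih _ _ _ _ ?_ hT⟩
    intro j hj
    by_cases hjn : j = n
    · subst hjn; simp
    · rw [Function.update_of_ne hjn, Function.update_of_ne hjn]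
      exact h j (by omega)

theorem TP_functional [Nonempty W] (hb : ∀ n s g, base n s g → Functional g) :
    ∀ k n s g, TP base k n s g → Functional g := by
  intro k
  induction k with
  | zero => exact fun n s g h => hb n s g h
  | succ k ih =>
    intro n s g h
    obtain ⟨β⟩ := ‹Nonempty W›
    obtain ⟨α, hα, g', hg', -, hT⟩ := h ∅ β
    intro q v w hv hw
    exact ih _ _ _ hT q v w (hg' hv) (hg' hw)

omit [LinearOrder W] in
/-- Uncountable families of finite conditions have a root (bounded version). -/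
theorem exists_root_aux (G : W → Finset (A × ℕ)) :
    ∀ (c : ℕ) (S : Set W) (g : Finset (A × ℕ)), ¬ S.Countable →
      (∀ α ∈ S, g ⊆ G α ∧ (G α).card ≤ g.card + c) →
      ∃ S' ⊆ S, ∃ g, ¬ S'.Countable ∧ (∀ α ∈ S', g ⊆ G α) ∧
        ∀ E : Finset A, {α | α ∈ S' ∧ ∃ q v, (q, v) ∈ G α ∧ q ∈ E ∧ (q, v) ∉ g}.Countable := by
  classical
  intro c
  induction c with
  | zero =>
    intro S g hS h
    refine ⟨S, subset_rfl, g, hS, fun α hα => (h α hα).1, fun E => ?_⟩
    have : {α | α ∈ S ∧ ∃ q v, (q, v) ∈ G α ∧ q ∈ E ∧ (q, v) ∉ g} = ∅ := by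
      rw [eq_empty_iff_forall_notMem]
      rintro α ⟨hα, q, v, h1, -, h2⟩
      have := Finset.eq_of_subset_of_card_le (h α hα).1 (h α hα).2
      rw [← this] at h1
      exact h2 h1
    rw [this]
    exact countable_empty
  | succ c ih =>
    intro S g hS h
    by_cases hE : ∀ E : Finset A,
        {α | α ∈ S ∧ ∃ q v, (q, v) ∈ G α ∧ q ∈ E ∧ (q, v) ∉ g}.Countable
    · exact ⟨S, subset_rfl, g, hS, fun α hα => (h α hα).1, hE⟩
    · push Not at hE
      obtain ⟨E, hE⟩ := hE
      have : ∃ q ∈ E, ∃ v, (q, v) ∉ g ∧ ¬ {α | α ∈ S ∧ (q, v) ∈ G α}.Countable := by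
        by_contra hcon
        push Not at hcon
        apply hE
        have hsub : {α | α ∈ S ∧ ∃ q v, (q, v) ∈ G α ∧ q ∈ E ∧ (q, v) ∉ g} ⊆
            ⋃ q ∈ E, ⋃ v : ℕ, {α | (q, v) ∉ g ∧ α ∈ S ∧ (q, v) ∈ G α} := by
          rintro α ⟨hα, q, v, h1, h2, h3⟩
          simp only [mem_iUnion]
          exact ⟨q, h2, v, h3, hα, h1⟩
        refine Countable.mono hsub ?_
        refine (Finset.countable_toSet E).biUnion fun q hq => countable_iUnion fun v => ?_
        by_cases hqv : (q, v) ∈ g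
        · have : {α | (q, v) ∉ g ∧ α ∈ S ∧ (q, v) ∈ G α} = ∅ := by
            rw [eq_empty_iff_forall_notMem]
            rintro α ⟨h1, -⟩
            exact h1 hqv
          rw [this]
          exact countable_empty
        · exact (hcon q hq v hqv).mono fun α hα => hα.2
      obtain ⟨q, _, v, hqv, hunc⟩ := this
      obtain ⟨S', hS', g', h1, h2, h3⟩ := ih {α | α ∈ S ∧ (q, v) ∈ G α} (insert (q, v) g) hunc (by
        rintro α ⟨hα, hqα⟩
        refine ⟨Finset.insert_subset hqα (h α hα).1, ?_⟩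
        rw [Finset.card_insert_of_notMem hqv]
        have := (h α hα).2
        omega)
      exact ⟨S', fun α hα => (hS' hα).1, g', h1, h2, h3⟩

omit [LinearOrder W] in
/-- Uncountable families of finite conditions have a root. -/
theorem exists_root {S : Set W} (hS : ¬ S.Countable) (G : W → Finset (A × ℕ)) :
    ∃ S' ⊆ S, ∃ g, ¬ S'.Countable ∧ (∀ α ∈ S', g ⊆ G α) ∧
        ∀ E : Finset A, {α | α ∈ S' ∧ ∃ q v, (q, v) ∈ G α ∧ q ∈ E ∧ (q, v) ∉ g}.Countable := by
  obtain ⟨c, hc⟩ : ∃ c, ¬ {α | α ∈ S ∧ (G α).card = c}.Countable := by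
    by_contra h
    push Not at h
    apply hS
    refine (countable_iUnion h).mono ?_
    intro α hα
    simp only [mem_iUnion]
    exact ⟨_, hα, rfl⟩
  obtain ⟨S', hS', g, h⟩ := exists_root_aux G c {α | α ∈ S ∧ (G α).card = c} ∅ hc
    (fun α hα => ⟨Finset.empty_subset _, by rw [hα.2]; simp⟩)
  exact ⟨S', fun α hα => (hS' hα).1, g, h⟩

/-- One step: if all large extensions carry a tree, so does the node. -/
theorem TP_step (hI : ∀ a : W, (Iic a).Countable) (hunc : ¬ (univ : Set W).Countable)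
    (n : ℕ) (s : ℕ → W) (β : W)
    (h : ∀ α, β < α → ∃ k g, TP base k (n + 1) (Function.update s n α) g) :
    ∃ k g, TP base k n s g := by
  classical
  choose! K G hG using h
  have hunc1 : ¬ (Ioi β).Countable := by
    intro hc
    apply hunc
    refine ((hI β).union hc).mono ?_
    intro α _
    rcases le_or_gt α β with h | h
    · exact Or.inl h
    · exact Or.inr h
  obtain ⟨k, hk⟩ : ∃ k, ¬ {α | α ∈ Ioi β ∧ K α = k}.Countable := by
    by_contra hcon
    push Not at hcon
    apply hunc1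
    refine (countable_iUnion hcon).mono ?_
    intro α hα
    simp only [mem_iUnion]
    exact ⟨_, hα, rfl⟩
  obtain ⟨S', hS', g, hS'c, hg, hE⟩ := exists_root hk G
  refine ⟨k + 1, g, fun E β' => ?_⟩
  have : ∃ α ∈ S', β' < α ∧ ¬ ∃ q v, (q, v) ∈ G α ∧ q ∈ E ∧ (q, v) ∉ g := by
    by_contra hcon
    push Not at hcon
    apply hS'c
    refine ((hI β').union (hE E)).mono ?_
    intro α hα
    rcases le_or_gt α β' with h | h
    · exact Or.inl h
    · exact Or.inr ⟨hα, hcon α hα h⟩
  obtain ⟨α, hα, hβ', hno⟩ := this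
  have hαS := hS' hα
  refine ⟨α, hβ', G α, hg α hα, ?_, ?_⟩
  · intro q v h1 h2
    by_contra h3
    exact hno ⟨q, v, h1, h2, h3⟩
  · have := hG α hαS.1
    rw [hαS.2] at this
    exact this

/-- There is a tree over the empty sequence, provided every strictly increasing sequence has an
initial segment in `base`. -/
theorem exists_TP (hI : ∀ a : W, (Iic a).Countable) (hunc : ¬ (univ : Set W).Countable)
    (hb : ∀ n s t g, (∀ j < n, s j = t j) → base n s g → base n t g)
    (hbase : ∀ x : H W, ∃ n g, base n x.1 g) (s₀ : ℕ → W) :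
    ∃ k g, TP base k 0 s₀ g := by
  classical
  by_contra hbad
  have step : ∀ (n : ℕ) (s : ℕ → W), (¬ ∃ k g, TP base k n s g) →
      ∀ β, ∃ α, β < α ∧ ¬ ∃ k g, TP base k (n + 1) (Function.update s n α) g := by
    intro n s hs β
    by_contra hcon
    push Not at hcon
    exact hs (TP_step hI hunc n s β hcon)
  choose! next hnext1 hnext2 using step
  -- the sequence of bad nodes
  let t : ℕ → (ℕ → W) := fun n => Nat.rec s₀ (fun n s => Function.update s n (next n s (s (n - 1)))) n
  have ht0 : t 0 = s₀ := rfl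
  have htS : ∀ n, t (n + 1) = Function.update (t n) n (next n (t n) (t n (n - 1))) := fun n => rfl
  have htbad : ∀ n, ¬ ∃ k g, TP base k n (t n) g := by
    intro n
    induction n with
    | zero => exact hbad
    | succ n ih =>
      rw [htS]
      exact hnext2 n (t n) ih _
  have htstab : ∀ j n, j < n → t n j = t (j + 1) j := by
    intro j n hjn
    induction n with
    | zero => omega
    | succ n ih =>
      rcases Nat.lt_succ_iff_lt_or_eq.1 hjn with h | h
      · rw [htS, Function.update_of_ne (by omega)]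
        exact ih h
      · subst h; rfl
  have hmono : StrictMono (fun j => t (j + 1) j) := by
    refine strictMono_nat_of_lt_succ fun n => ?_
    have h1 : t (n + 1 + 1) (n + 1) = next (n + 1) (t (n + 1)) (t (n + 1) (n + 1 - 1)) := by
      rw [htS (n + 1), Function.update_self]
    rw [h1]
    exact hnext1 (n + 1) (t (n + 1)) (htbad (n + 1)) _
  obtain ⟨n, g, hng⟩ := hbase ⟨_, hmono⟩
  refine htbad n ⟨0, g, ?_⟩
  refine hb n _ _ g ?_ hng
  intro j hj
  exact (htstab j n hj).symm

/-- Growing two trees in an interleaved way. -/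
theorem TP_pair :
    ∀ k n s t g h, TP base k n s g → TP base k n t h → Compat g h →
      (∀ j, j + 1 < n → s j < t (j + 1) ∧ t j < s (j + 1)) →
      ∃ s' t' g' h', base (n + k) s' g' ∧ base (n + k) t' h' ∧ Compat g' h' ∧
        (∀ j < n, s' j = s j) ∧ (∀ j < n, t' j = t j) ∧
        (∀ j, j + 1 < n + k → s' j < t' (j + 1) ∧ t' j < s' (j + 1)) := by
  classical
  intro k
  induction k with
  | zero =>
    intro n s t g h hs ht hc hst
    exact ⟨s, t, g, h, hs, ht, hc, fun _ _ => rfl, fun _ _ => rfl, hst⟩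
  | succ k ih =>
    intro n s t g h hs ht hc hst
    obtain ⟨α, hα, g', hgg', hgE, hs'⟩ := hs (h.image Prod.fst) (max (s (n - 1)) (t (n - 1)))
    have hc1 : Compat g' h := by
      intro q v w hv hw
      exact hc q v w (hgE q v hv (Finset.mem_image.2 ⟨(q, w), hw, rfl⟩)) hw
    obtain ⟨α', hα', h', hhh', hhE, ht'⟩ := ht (g'.image Prod.fst) (max (s (n - 1)) (t (n - 1)))
    have hc2 : Compat g' h' := by
      intro q v w hv hw
      exact hc1 q v w hv (hhE q w hw (Finset.mem_image.2 ⟨(q, v), hv, rfl⟩))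
    obtain ⟨s', t', g'', h'', h1, h2, h3, h4, h5, h6⟩ := ih (n + 1) _ _ g' h' hs' ht' hc2 (by
      intro j hj
      rcases Nat.lt_succ_iff_lt_or_eq.1 hj with hj' | hj'
      · rw [Function.update_of_ne (by omega), Function.update_of_ne (by omega),
          Function.update_of_ne (by omega), Function.update_of_ne (by omega)]
        exact hst j hj'
      · have hjn : j = n - 1 := by omega
        rw [hj', Function.update_self, Function.update_self, Function.update_of_ne (by omega),
          Function.update_of_ne (by omega), hjn]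
        exact ⟨(le_max_left _ _).trans_lt hα', (le_max_right _ _).trans_lt hα⟩)
    have e : n + 1 + k = n + (k + 1) := by omega
    rw [e] at h1 h2 h6
    refine ⟨s', t', g'', h'', h1, h2, h3, ?_, ?_, h6⟩
    · intro j hj
      rw [h4 j (by omega), Function.update_of_ne (by omega)]
    · intro j hj
      rw [h5 j (by omega), Function.update_of_ne (by omega)]

theorem exists_gt (hI : ∀ a : W, (Iic a).Countable) (hunc : ¬ (univ : Set W).Countable)
    (β : W) : ∃ α, β < α := by
  by_contra h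
  push Not at h
  exact hunc ((hI β).mono fun α _ => h α)

theorem exists_H (hI : ∀ a : W, (Iic a).Countable) (hunc : ¬ (univ : Set W).Countable)
    (d : W) : ∃ x : H W, x.1 0 = d := by
  choose s hs using exists_gt hI hunc
  refine ⟨⟨fun n => Nat.rec d (fun _ a => s a) n, strictMono_nat_of_lt_succ fun n => hs _⟩, rfl⟩

theorem not_paralindelof_YY (hI : ∀ a : W, (Iic a).Countable)
    (hunc : ¬ (univ : Set W).Countable) : ¬ Paralindelof (YY W) := by
  classical
  intro hY
  have hne : Nonempty W := by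
    by_contra h
    rw [not_nonempty_iff] at h
    exact hunc (by rw [univ_eq_empty_iff.2 h]; exact countable_empty)
  obtain ⟨w₀⟩ := hne
  have : Nonempty W := ⟨w₀⟩
  obtain ⟨V, hVo, hVc, hVr, hVl⟩ := hY (range fun d : W => insert (YY.bas d) (range YY.pt))
    (by
      rintro _ ⟨d, rfl⟩ x _
      exact ⟨0, ∅, fun i _ => Or.inr ⟨i, rfl⟩⟩)
    (by
      rw [eq_univ_iff_forall]
      rintro (d | i)
      · exact ⟨_, ⟨d, rfl⟩, Or.inl rfl⟩
      · exact ⟨_, ⟨w₀, rfl⟩, Or.inr ⟨i, rfl⟩⟩)
  have hex : ∀ d : W, ∃ v ∈ V, YY.bas d ∈ v := by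
    intro d
    have : YY.bas d ∈ ⋃₀ V := by rw [hVc]; trivial
    exact this
  choose v hvV hv using hex
  have hvinj : Function.Injective v := by
    intro d e hde
    obtain ⟨_, ⟨c, rfl⟩, hc⟩ := hVr (v d) (hvV d)
    have h1 : YY.bas d = YY.bas c := by
      rcases hc (hv d) with h | ⟨i, hi⟩
      · exact h
      · cases hi
    have h2 : YY.bas e = YY.bas c := by
      have : YY.bas e ∈ v d := by rw [hde]; exact hv e
      rcases hc this with h | ⟨i, hi⟩
      · exact h
      · cases hi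
    have := h1.trans h2.symm
    injection this
  choose Nb hNb hNbc using fun d : W => hVl (YY.bas d)
  have hO : ∀ d : W, ∃ O : Set (YY W), IsOpen O ∧ YY.bas d ∈ O ∧ O ⊆ Nb d ∧ O ⊆ v d := by
    intro d
    obtain ⟨O, hO1, hO2, hO3⟩ := mem_nhds_iff.1 (hNb d)
    exact ⟨O ∩ v d, hO2.inter (hVo _ (hvV d)), ⟨hO3, hv d⟩, inter_subset_left.trans hO1,
      inter_subset_right⟩
  choose O hOo hOd hON hOv using hO
  choose nn FF hnF using fun x : H W => isOpen_YY.1 (hOo (x.1 0)) x (hOd (x.1 0))
  let base : ℕ → (ℕ → W) → Finset (Q W × ℕ) → Prop := fun n s g =>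
    ∃ x : H W, 1 ≤ n ∧ nn x ≤ n ∧ (∀ j < n, x.1 j = s j) ∧
      g = (FF x).image (fun q => (q, q.1 x))
  have hb1 : ∀ n s t g, (∀ j < n, s j = t j) → base n s g → base n t g := by
    rintro n s t g hst ⟨x, h1, h2, h3, h4⟩
    exact ⟨x, h1, h2, fun j hj => (h3 j hj).trans (hst j hj), h4⟩
  have hb2 : ∀ n s g, base n s g → Functional g := by
    rintro n s g ⟨x, h1, h2, h3, rfl⟩ q v w hv hw
    simp only [Finset.mem_image, Prod.mk.injEq] at hv hw
    obtain ⟨q1, _, rfl, rfl⟩ := hv
    obtain ⟨q2, _, rfl, rfl⟩ := hw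
    rfl
  have hb3 : ∀ x : H W, ∃ n g, base n x.1 g := fun x =>
    ⟨max 1 (nn x), _, x, le_max_left _ _, le_max_right _ _, fun _ _ => rfl, rfl⟩
  obtain ⟨k, g, hk⟩ := exists_TP hI hunc hb1 hb3 (fun _ => w₀)
  rcases k with _ | k
  · obtain ⟨x, h1, -⟩ := hk
    omega
  obtain ⟨d, -, g₁, hgg₁, -, hT1⟩ := hk ∅ w₀
  have hfun1 : Functional g₁ := TP_functional hb2 _ _ _ _ hT1
  have key : ∀ β, ∃ d', β < d' ∧ (O d ∩ O d').Nonempty := by
    intro β
    obtain ⟨d', hd', g₁', hgg₁', hE, hT1'⟩ := hk (g₁.image Prod.fst) β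
    have hcomp : Compat g₁ g₁' := by
      intro q a b ha hb
      exact hfun1 q a b ha (hgg₁ (hE q b hb (Finset.mem_image.2 ⟨(q, a), ha, rfl⟩)))
    obtain ⟨s', t', g', h', hs', ht', hc', hss, htt, hint⟩ :=
      TP_pair (base := base) k 1 _ _ g₁ g₁' hT1 hT1' hcomp (fun j hj => by omega)
    obtain ⟨x, hx1, hx2, hx3, rfl⟩ := hs'
    obtain ⟨x', hx1', hx2', hx3', rfl⟩ := ht'
    refine ⟨d', hd', YY.pt ⟨s', t', 1 + k, hint,
      fun q => if q ∈ FF x then q.1 x else q.1 x'⟩, ?_, ?_⟩
    · have h0 : x.1 0 = d := by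
        rw [hx3 0 (by omega), hss 0 (by omega), Function.update_self]
      have h1 := hnF x ⟨s', t', 1 + k, hint, fun q => if q ∈ FF x then q.1 x else q.1 x'⟩ (by
        refine ⟨hx2, Or.inl fun j hj => hx3 j (lt_of_lt_of_le hj hx2), fun q hq => ?_⟩
        simp [hq])
      rw [h0] at h1
      exact h1
    · have h0 : x'.1 0 = d' := by
        rw [hx3' 0 (by omega), htt 0 (by omega), Function.update_self]
      have h1 := hnF x' ⟨s', t', 1 + k, hint, fun q => if q ∈ FF x then q.1 x else q.1 x'⟩ (by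
        refine ⟨hx2', Or.inr fun j hj => hx3' j (lt_of_lt_of_le hj hx2'), fun q hq => ?_⟩
        by_cases hqx : q ∈ FF x
        · simp only [hqx, if_true]
          exact hc' q _ _ (Finset.mem_image.2 ⟨q, hqx, rfl⟩) (Finset.mem_image.2 ⟨q, hq, rfl⟩)
        · simp [hqx])
      rw [h0] at h1
      exact h1
  -- contradiction with countability
  have hD : {d' | (v d' ∩ Nb d).Nonempty}.Countable := by
    have : {d' | (v d' ∩ Nb d).Nonempty} ⊆
        v ⁻¹' {u : Set (YY W) | u ∈ V ∧ (u ∩ Nb d).Nonempty} := fun d' hd' => ⟨hvV d', hd'⟩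
    exact Countable.mono this ((hNbc d).preimage hvinj)
  apply hunc
  refine Countable.mono ?_ (hD.biUnion fun d' _ => hI d')
  intro β _
  obtain ⟨d', hd', y, hy1, hy2⟩ := key β
  simp only [mem_iUnion]
  exact ⟨d', ⟨y, hOv d' hy2, hON d hy1⟩, hd'.le⟩

end Pool.Agent.Lib.MP_6bd103_gt
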