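import Mathlib
import Pool.Agent.Lib.MP_6bd103_gt.Space

/-!
# The space `X` is paralindelof
-/

namespace Pool.Agent.Lib.MP_6bd103_gt

open Set Topology

variable {W : Type} [LinearOrder W]

theorem paralindelof_XX (hW : ∀ a : W, (Iio a).Countable) : Paralindelof (XX W) := by
  classical
  intro U hUo hUc
  -- `P x n` : some basic neighbourhood of `x` at level `n`, with all functions constant on the
  -- cone, lies in a member of the cover
  let P' : H W → ℕ → Finset (Q W) → Set (XX W) → Prop := fun x n F u =>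
    u ∈ U ∧ (∀ q ∈ F, ∀ z, Agree n x z → q.1 z = q.1 x) ∧ N x n F ⊆ u
  have hPc : ∀ x z n F u, Agree n x z → P' x n F u → P' z n F u := by
    rintro x z n F u hxz ⟨h1, h2, h3⟩
    refine ⟨h1, ?_, ?_⟩
    · intro q hq w hw
      rw [h2 q hq w (hxz.trans hw), h2 q hq z hxz]
    · rw [N_congr hxz (fun q hq => h2 q hq z hxz)]
      exact h3
  have hP : ∀ x, ∃ n, ∃ F u, P' x n F u := by
    intro x
    have : XX.seq x ∈ ⋃₀ U := by rw [hUc]; trivial
    obtain ⟨u, hu, hxu⟩ := this
    obtain ⟨n, F, h⟩ := isOpen_XX.1 (hUo u hu) x hxu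
    choose m hm using fun q : Q W => q.2 x
    refine ⟨max n (F.sup m), F, u, hu, ?_, ?_⟩
    · intro q hq z hz
      exact hm q z (hz.mono ((Finset.le_sup hq).trans (le_max_right _ _)))
    · exact (N_mono x (le_max_left _ _) subset_rfl).trans h
  let m : H W → ℕ := fun x => Nat.find (hP x)
  have hmspec : ∀ x, ∃ F u, P' x (m x) F u := fun x => Nat.find_spec (hP x)
  have hm : ∀ x z, Agree (m x) x z → m z = m x := by
    intro x z hxz
    apply le_antisymm
    · obtain ⟨F, u, h⟩ := hmspec x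
      exact Nat.find_min' _ ⟨F, u, hPc x z _ F u hxz h⟩
    · by_contra hlt
      push Not at hlt
      have h1 : Agree (m z) x z := hxz.mono hlt.le
      obtain ⟨F, u, h⟩ := hmspec z
      exact Nat.find_min (hP x) hlt ⟨F, u, hPc z x _ F u h1.symm h⟩
  let qm : Q W := ⟨m, fun x => ⟨m x, fun z hz => hm x z hz⟩⟩
  -- codes for cones
  let cone : (Σ n, (Fin n → W)) → H W → Prop := fun σ x =>
    m x = σ.1 ∧ ∀ j : Fin σ.1, x.1 j = σ.2 j
  have hcone : ∀ σ, ∃ F u, ∀ x, cone σ x → P' x σ.1 F u := by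
    intro σ
    by_cases h : ∃ x, cone σ x
    · obtain ⟨x, hx1, hx2⟩ := h
      obtain ⟨F, u, hF⟩ := hmspec x
      refine ⟨F, u, ?_⟩
      rintro z ⟨hz1, hz2⟩
      rw [hx1] at hF
      refine hPc x z σ.1 F u (fun j hj => ?_) hF
      rw [hx2 ⟨j, hj⟩, hz2 ⟨j, hj⟩]
    · exact ⟨∅, univ, fun x hx => absurd ⟨x, hx⟩ h⟩
  choose F u hFu using hcone
  let V : (Σ n, (Fin n → W)) → Set (XX W) := fun σ =>
    {p | ∃ x, cone σ x ∧ p ∈ N x (σ.1 + 1) (insert qm (F σ))}
  have hVo : ∀ σ, IsOpen (V σ) := by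
    intro σ x hx
    obtain ⟨z, hz, hxz⟩ := hx
    obtain ⟨n, G, h⟩ := isOpen_XX.1 (isOpen_N z _ _) x hxz
    exact ⟨n, G, fun p hp => ⟨z, hz, h hp⟩⟩
  have hVu : ∀ σ, (V σ).Nonempty → u σ ∈ U ∧ V σ ⊆ u σ := by
    rintro σ ⟨p, x, hx, hp⟩
    refine ⟨(hFu σ x hx).1, ?_⟩
    rintro p' ⟨z, hz, hp'⟩
    exact (hFu σ z hz).2.2 (N_mono z (Nat.le_succ _) (Finset.subset_insert _ _) hp')
  have hself : ∀ x, XX.seq x ∈ V ⟨m x, fun j => x.1 j⟩ := fun x =>
    ⟨x, ⟨rfl, fun _ => rfl⟩, self_mem_N _ _ _⟩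
  -- the refinement
  let 𝒱 : Set (Set (XX W)) := {v | (∃ σ, (V σ).Nonempty ∧ v = V σ) ∨
    ∃ i, (∀ σ, XX.pt i ∉ V σ) ∧ v = {XX.pt i}}
  refine ⟨𝒱, ?_, ?_, ?_, ?_⟩
  · rintro v (⟨σ, _, rfl⟩ | ⟨i, _, rfl⟩)
    · exact hVo σ
    · exact isOpen_singleton_pt i
  · rw [eq_univ_iff_forall]
    rintro (x | i)
    · exact ⟨_, Or.inl ⟨_, ⟨_, hself x⟩, rfl⟩, hself x⟩
    · by_cases h : ∃ σ, XX.pt i ∈ V σ
      · obtain ⟨σ, hσ⟩ := h
        exact ⟨_, Or.inl ⟨σ, ⟨_, hσ⟩, rfl⟩, hσ⟩
      · push Not at h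
        exact ⟨_, Or.inr ⟨i, h, rfl⟩, rfl⟩
  · rintro v (⟨σ, hσ, rfl⟩ | ⟨i, _, rfl⟩)
    · exact ⟨u σ, (hVu σ hσ).1, (hVu σ hσ).2⟩
    · have : XX.pt i ∈ ⋃₀ U := by rw [hUc]; trivial
      obtain ⟨w, hw, hiw⟩ := this
      exact ⟨w, hw, by rintro _ rfl; exact hiw⟩
  · rintro (x | i)
    · -- local countability at a sequence
      refine ⟨V ⟨m x, fun j => x.1 j⟩ ∩ N x (m x + 1) {qm},
        ((hVo _).inter (isOpen_N _ _ _)).mem_nhds ⟨hself x, self_mem_N _ _ _⟩, ?_⟩
      let C : Set (Σ n, (Fin n → W)) := {σ | σ.1 = m x ∧ ∀ j, σ.2 j < x.1 (m x)}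
      have hC : C.Countable := by
        have : C ⊆ range (fun s : Fin (m x) → Iio (x.1 (m x)) =>
            (⟨m x, fun j => (s j : W)⟩ : Σ n, (Fin n → W))) := by
          rintro ⟨n, s⟩ ⟨h1, h2⟩
          simp only at h1
          subst h1
          exact ⟨fun j => ⟨s j, h2 j⟩, rfl⟩
        have hc : Countable (Iio (x.1 (m x))) := (hW _).to_subtype
        exact Countable.mono this (countable_range _)
      refine (hC.image V).mono ?_
      rintro v ⟨hv, p, hpv, hpN⟩
      rcases hv with ⟨σ, _, rfl⟩ | ⟨i, hi, rfl⟩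
      · refine ⟨σ, ?_, rfl⟩
        obtain ⟨z, ⟨hz1, hz2⟩, hpz⟩ := hpv
        have hpx := hpN.2
        rcases p with w | i
        · -- a sequence in both
          have e1 : m w = m z := hpz.2 qm (Finset.mem_insert_self _ _)
          have e2 : m w = m x := hpx.2 qm (Finset.mem_singleton_self _)
          have e3 : σ.1 = m x := by rw [← hz1, ← e1, e2]
          refine ⟨e3, fun j => ?_⟩
          have hj : (j : ℕ) < m x := e3 ▸ j.2
          rw [← hz2 j, hpz.1 j (j.2.trans (Nat.lt_succ_self _)),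
            ← hpx.1 j (hj.trans (Nat.lt_succ_self _))]
          exact x.2 hj
        · have e1 : i.f qm = m z := hpz.2.2 qm (Finset.mem_insert_self _ _)
          have e2 : i.f qm = m x := hpx.2.2 qm (Finset.mem_singleton_self _)
          have e3 : σ.1 = m x := by rw [← hz1, ← e1, e2]
          refine ⟨e3, fun j => ?_⟩
          have hj : (j : ℕ) < m x := e3 ▸ j.2
          have hk : m x + 1 ≤ i.k := hpx.1
          have hz := hpz.2.1
          rw [e3] at hz
          rw [← hz2 j]
          have hjj : (j : ℕ) + 1 ≤ m x := hj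
          rcases hpx.2.1 with hx | hx <;> rcases hz with hz | hz
          · rw [hz j (hj.trans (Nat.lt_succ_self _)), ← hx j (hj.trans (Nat.lt_succ_self _))]
            exact x.2 hj
          · rw [hz j (hj.trans (Nat.lt_succ_self _))]
            have h1 := (i.hab j (by omega)).2
            rw [← hx (j + 1) (by omega)] at h1
            exact h1.trans_le (x.2.monotone hjj)
          · rw [hz j (hj.trans (Nat.lt_succ_self _))]
            have h1 := (i.hab j (by omega)).1
            rw [← hx (j + 1) (by omega)] at h1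
            exact h1.trans_le (x.2.monotone hjj)
          · rw [hz j (hj.trans (Nat.lt_succ_self _)), ← hx j (hj.trans (Nat.lt_succ_self _))]
            exact x.2 hj
      · have : p = XX.pt i := hpv
        subst this
        exact absurd hpN.1 (hi _)
    · -- local countability at an isolated point
      refine ⟨{XX.pt i}, (isOpen_singleton_pt i).mem_nhds rfl, ?_⟩
      let A : Set (Set (XX W)) := range (fun n => V ⟨n, fun j => i.a j⟩) ∪
        range (fun n => V ⟨n, fun j => i.b j⟩) ∪ {{XX.pt i}}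
      have hA : A.Countable :=
        ((countable_range _).union (countable_range _)).union (countable_singleton _)
      refine hA.mono ?_
      rintro v ⟨hv, p, hpv, hpi⟩
      have : p = XX.pt i := hpi
      subst this
      rcases hv with ⟨σ, _, rfl⟩ | ⟨j, hj, rfl⟩
      · left
        obtain ⟨z, ⟨hz1, hz2⟩, hpz⟩ := hpv
        rcases hpz.2.1 with h | h
        · left
          refine ⟨σ.1, ?_⟩
          have : (fun j : Fin σ.1 => i.a j) = σ.2 := by
            funext j
            rw [← hz2 j]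
            exact (h j (j.2.trans (Nat.lt_succ_self _))).symm
          simp only [this]
        · right
          refine ⟨σ.1, ?_⟩
          have : (fun j : Fin σ.1 => i.b j) = σ.2 := by
            funext j
            rw [← hz2 j]
            exact (h j (j.2.trans (Nat.lt_succ_self _))).symm
          simp only [this]
      · right
        have : XX.pt i = XX.pt j := hpv
        rw [this]
        rfl

end Pool.Agent.Lib.MP_6bd103_gt
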